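import Pool.Agent.Y671.GL.Shift

/-!
# The Riemann hypothesis for the derivatives of L-functions of elliptic curves, up to an exponentially small proportion

`E : y² = x³ + a x + b` is an elliptic curve over `ℚ` of conductor `N` and `Λ` its completed L-function.
The Riemann hypothesis for `E` says that all zeros of `Λ` are on the line `Re s = 1`; it implies the same for
all derivatives `Λ^(n)`.

We prove unconditionally, for every `E`: there are constants `c, C > 0` such that for every `n ≥ 0` and every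
`T` the proportion of the zeros of `Λ^(n)` with imaginary part in `(0, T]` which are off the line `Re s = 1`
or multiple is at most `C exp (-c n)`, and their number is at most `C exp (-c n) T log T` (`T ≥ 2`).

Proof (project GD2 of helper671 with helpers 19, 67, 175, 228, 275, 285, 287, 317, 412, 423, 46, 494, 660, 771,
809 and others; modules `Pool.Agent.Y671` and imports).  The main point is an asymptotic mean value theorem for
`L(E, s)` times a mollifier of positive length near the line at all scales down to `1 / log T`, uniformly to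
the right of the line.  It is proved by the Mellin transform on a ray near the imaginary axis, which reduces it
to the shifted convolution sums of the newform; these are treated by Jutila's circle method with Kloosterman
sums (Weil's bound).  From it one gets that at all heights, except for a set of proportion `exp (-c a)`,
the function `Λ` looks at the scale `a / log T` like `exp (z log T)` plus its reflection, and a local theorem on
the derivatives (Cauchy's formula on a disc of radius `n / log T`) shows that the zeros of `Λ^(n)` near such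
heights are simple and on the line.  The local theory is that of the starting modules for the Riemann zeta
function (`Pool.Agent.H24R2.DZ`, `Pool.Agent.W186.SD`).
-/

set_option autoImplicit false

open Complex UpperHalfPlane MatrixGroups CongruenceSubgroup

namespace Pool.Agent.Results.MP_553913_nt.DerivativesDensity

/-- The coefficient `a_p` of `E : y² = x³ + a x + b` at a prime `p ∤ 2 (4a³ + 27b²)`: `p` minus the
number of pairs `(x, y)` modulo `p` with `y² ≡ x³ + a x + b (mod p)`. -/
noncomputable def ap (a b : ℤ) (p : ℕ) : ℤ :=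
  (p : ℤ) - (((Finset.range p ×ˢ Finset.range p).filter
    (fun xy : ℕ × ℕ => (p : ℤ) ∣ (xy.2 : ℤ) ^ 2 -
      ((xy.1 : ℤ) ^ 3 + a * (xy.1 : ℤ) + b))).card : ℤ)

/-- The `n`-th Fourier coefficient of `f`. -/
noncomputable def coef {N : ℕ} (f : CuspForm (Gamma0 N : Subgroup (GL (Fin 2) ℝ)) 2) (n : ℕ) : ℂ :=
  (qExpansion 1 f).coeff n

/-- `f ∈ S_2(Γ₀(N))` is the newform of the elliptic curve `E : y² = x³ + a x + b` of conductor `N` and
root number `w`: the Fourier coefficients `c(n)` of `f` are real with `c(1) = 1`, they satisfy the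
Hecke relations `c(mn) = c(m) c(n)` for coprime `m`, `n` and `c(p^(j+2)) = c(p) c(p^(j+1)) - p c(p^j)`
(without the last term if `p ∣ N`), `f(-1/(Nτ)) = -w N τ² f(τ)`, `c(p) = a_p(E)` for all primes
`p ∤ 2 (4a³ + 27b²)`, `|c(p)| ≤ 2 √p` for all `p ∤ N` (Hasse) and `c(p) = 0, 1, -1` for `p ∣ N`. -/
structure IsFormOf (a b : ℤ) (N : ℕ) (f : CuspForm (Gamma0 N : Subgroup (GL (Fin 2) ℝ)) 2) (w : ℝ) :
    Prop where
  one : coef f 1 = 1
  real : ∀ n, (coef f n).im = 0
  mul : ∀ m n : ℕ, Nat.Coprime m n → coef f (m * n) = coef f m * coef f n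
  pow : ∀ p j : ℕ, p.Prime → coef f (p ^ (j + 2)) = coef f p * coef f (p ^ (j + 1)) -
      (if p ∣ N then 0 else (p : ℂ) * coef f (p ^ j))
  sign : w = 1 ∨ w = -1
  fricke : ∀ τ τ' : ℍ, (τ' : ℂ) * ((N : ℂ) * (τ : ℂ)) = -1 →
    f τ' = -(w : ℂ) * (N : ℂ) * (τ : ℂ) ^ 2 * f τ
  points : ∀ p : ℕ, p.Prime → ¬ (p : ℤ) ∣ 2 * (4 * a ^ 3 + 27 * b ^ 2) → coef f p = (ap a b p : ℂ)
  good : ∀ p : ℕ, p.Prime → ¬ p ∣ N → ‖coef f p‖ ≤ 2 * Real.sqrt p
  bad : ∀ p : ℕ, p.Prime → p ∣ N → coef f p = 0 ∨ coef f p = 1 ∨ coef f p = -1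

/-- `Λ` is the completed L-function of `f`: it is entire and
`Λ(s) = N^(s/2) (2π)^(-s) Γ(s) ∑ c(n) n^(-s)` for `Re s > 2`. -/
def IsCompleted {N : ℕ} (f : CuspForm (Gamma0 N : Subgroup (GL (Fin 2) ℝ)) 2) (Λ : ℂ → ℂ) : Prop :=
  Differentiable ℂ Λ ∧ ∀ s : ℂ, 2 < s.re →
    Λ s = ((Real.sqrt N / (2 * Real.pi) : ℝ) : ℂ) ^ s * Complex.Gamma s *
      ∑' n : ℕ, coef f (n + 1) * ((n + 1 : ℕ) : ℂ) ^ (-s)

/-- The zeros of the `n`-th derivative of `Λ` with imaginary part in `(0, T]`. -/
def Zer (Λ : ℂ → ℂ) (n : ℕ) (T : ℝ) : Set ℂ := {s | iteratedDeriv n Λ s = 0 ∧ 0 < s.im ∧ s.im ≤ T}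

/-- The exceptional ones: off the line `Re s = 1`, or multiple. -/
def Exc (Λ : ℂ → ℂ) (n : ℕ) (T : ℝ) : Set ℂ :=
  {s | s ∈ Zer Λ n T ∧ (s.re ≠ 1 ∨ iteratedDeriv (n + 1) Λ s = 0)}

/-- The number of points of `A`, each counted with its multiplicity as a zero of the `n`-th derivative
of `Λ`. -/
noncomputable def num (Λ : ℂ → ℂ) (n : ℕ) (A : Set ℂ) : ℕ :=
  ∑ᶠ s ∈ A, analyticOrderNatAt (iteratedDeriv n Λ) s

/-- **Main theorem.** Let `E : y² = x³ + a x + b` be an elliptic curve over `ℚ`, and `Λ` its completed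
L-function. There are `c, C > 0` such that for all `n ≥ 0` and all `T` at most the proportion
`C exp (-c n)` of the zeros of `Λ^(n)` with imaginary part in `(0, T]`, counted with multiplicity, are off the
line `Re s = 1` or multiple; and for `T ≥ 2` the number of the exceptional zeros is at most
`C exp (-c n) T log T`. -/
theorem result (a b : ℤ) (N : ℕ) [NeZero N] (f : CuspForm (Gamma0 N : Subgroup (GL (Fin 2) ℝ)) 2) (w : ℝ)
    (_ : 4 * a ^ 3 + 27 * b ^ 2 ≠ 0) (hf : IsFormOf a b N f w) :
    ∃ Λ : ℂ → ℂ, IsCompleted f Λ ∧ (∀ Λ', IsCompleted f Λ' → Λ' = Λ) ∧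
      (∀ s : ℂ, Λ (2 - s) = (w : ℂ) * Λ s) ∧
      (∀ (n : ℕ) (T : ℝ), (Zer Λ n T).Finite) ∧
      ∃ c C : ℝ, 0 < c ∧ 0 < C ∧
        (∀ (n : ℕ) (T : ℝ), (num Λ n (Exc Λ n T) : ℝ) ≤ C * Real.exp (-(c * n)) * num Λ n (Zer Λ n T)) ∧
        (∀ (n : ℕ) (T : ℝ), 2 ≤ T →
          (num Λ n (Exc Λ n T) : ℝ) ≤ C * Real.exp (-(c * n)) * T * Real.log T) := by
  have hf' : Pool.Agent.W169.HF.IsForm N f w :=
    { one := hf.one
      real := hf.real
      mul := hf.mul
      pow := hf.pow
      sign := hf.sign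
      fricke := hf.fricke
      good := hf.good
      bad := fun p hp hpN => by
        have h1 : (1 : ℝ) ≤ Real.sqrt p := by
          rw [Real.one_le_sqrt]
          exact_mod_cast hp.one_le
        have h2 : ‖coef f p‖ ≤ 1 := by
          rcases hf.bad p hp hpN with h | h | h <;> simp [h]
        exact h2.trans h1 }
  obtain ⟨Λ, hΛ, hfe, -, -⟩ := Pool.Agent.W174.HF.nf1 N f w hf'
  obtain ⟨u, H, Z, hu, hG, -, hA, hL, -⟩ := Pool.Agent.Y671.GL.ec_data hf' hΛ
  have e1 : (fun z : ℂ => u * Λ (1 + z)) = fun z => u * Λ (((1 : ℝ) : ℂ) + z) := by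
    funext z
    rw [Complex.ofReal_one]
  rw [e1] at hG hA hL
  obtain ⟨h1, h2⟩ := Pool.Agent.Y671.GL.countD_shift (by norm_num) (by norm_num) hu hG hA hL
  exact ⟨Λ, hΛ, fun Λ' h' => Pool.Agent.W169.HF.completed_unique h' hΛ, hfe, h1, h2⟩

end Pool.Agent.Results.MP_553913_nt.DerivativesDensity
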