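import Pool.Agent.Y24.GL.H8
import Pool.Agent.W174.HF.NF1

/-!
# Zeros of L-functions of elliptic curves near the critical line: a log-free density theorem

`E : y² = x³ + a x + b` is an elliptic curve over `ℚ` of conductor `N` and `Λ` its completed
L-function.  We prove, unconditionally, for every `E` and EVERY `c < 1`: the number of zeros of `Λ`
with real part at least `σ` and imaginary part in `(0, T]`, counted with multiplicity, is at most
`C T^(1 - c (σ - 1)) log T`, for all `1 ≤ σ ≤ 3/2` and all `T ≥ 2`.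

For `σ = 1` this is the order of the number of all zeros, and the number of zeros to the right of
`1 + h / log T` is at most `C e^(-c h) T log T`, for all `h ≥ 0`.

Proof (modules `Pool.Agent.Y24.GL`): let `F` be the L-function and `m` a mollifier of length `T^θ` with a
very small `θ`. The mean square of `F m` on the critical line is bounded (modules of project GD2 of
helper671: shifted convolution sums by Jutila's circle method). The inverse of the Dirichlet series `F m`,
cut off at `T^κ` with `κ < 1` as close to `1` as we like, is a second mollifier `M`; its mean square on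
the critical line is bounded too, by the mean value theorem for Dirichlet polynomials and
estimates for Euler products. So the mean value of `|F m M|` is bounded, on the line of
abscissa `A` we have `F m M = 1 + O(T^(-κ (A - 2)))`, and the exponential decay in between follows from convexity
of the mean values of exponent one; then Jensen's formula in large circles.
-/

set_option autoImplicit false

open Complex UpperHalfPlane MatrixGroups CongruenceSubgroup

namespace Pool.Agent.Results.MP_553913_nt.LogFreeDensity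

/-- The coefficient `a_p` of `E : y² = x³ + a x + b` at a prime `p ∤ 2 (4a³ + 27b²)`: `p` minus the
number of pairs `(x, y)` modulo `p` with `y² ≡ x³ + a x + b (mod p)`. -/
noncomputable def ap (a b : ℤ) (p : ℕ) : ℤ :=
  (p : ℤ) - (((Finset.range p ×ˢ Finset.range p).filter
    (fun xy : ℕ × ℕ => (p : ℤ) ∣ (xy.2 : ℤ) ^ 2 -
      ((xy.1 : ℤ) ^ 3 + a * (xy.1 : ℤ) + b))).card : ℤ)

/-- The `n`-th Fourier coefficient of `f`. -/
noncomputable def coef {N : ℕ} (f : CuspForm (Gamma0 N : Subgroup (GL (Fin 2) ℝ)) 2) (n : ℕ) : ℂ :=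
  (qExpansion 1 f).coeff n

/-- `f ∈ S_2(Γ₀(N))` is the newform of the elliptic curve `E : y² = x³ + a x + b` of conductor `N` and
root number `w`: the Fourier coefficients `c(n)` of `f` are real with `c(1) = 1`, they satisfy the
Hecke relations `c(mn) = c(m) c(n)` for coprime `m`, `n` and `c(p^(j+2)) = c(p) c(p^(j+1)) - p c(p^j)`
(without the last term if `p ∣ N`), `f(-1/(Nτ)) = -w N τ² f(τ)`, `c(p) = a_p(E)` for all primes
`p ∤ 2 (4a³ + 27b²)`, `|c(p)| ≤ 2 √p` for all `p ∤ N` (Hasse) and `c(p) = 0, 1, -1` for `p ∣ N`. -/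
structure IsFormOf (a b : ℤ) (N : ℕ) (f : CuspForm (Gamma0 N : Subgroup (GL (Fin 2) ℝ)) 2) (w : ℝ) :
    Prop where
  one : coef f 1 = 1
  real : ∀ n, (coef f n).im = 0
  mul : ∀ m n : ℕ, Nat.Coprime m n → coef f (m * n) = coef f m * coef f n
  pow : ∀ p j : ℕ, p.Prime → coef f (p ^ (j + 2)) = coef f p * coef f (p ^ (j + 1)) -
      (if p ∣ N then 0 else (p : ℂ) * coef f (p ^ j))
  sign : w = 1 ∨ w = -1
  fricke : ∀ τ τ' : ℍ, (τ' : ℂ) * ((N : ℂ) * (τ : ℂ)) = -1 →
    f τ' = -(w : ℂ) * (N : ℂ) * (τ : ℂ) ^ 2 * f τ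
  points : ∀ p : ℕ, p.Prime → ¬ (p : ℤ) ∣ 2 * (4 * a ^ 3 + 27 * b ^ 2) → coef f p = (ap a b p : ℂ)
  good : ∀ p : ℕ, p.Prime → ¬ p ∣ N → ‖coef f p‖ ≤ 2 * Real.sqrt p
  bad : ∀ p : ℕ, p.Prime → p ∣ N → coef f p = 0 ∨ coef f p = 1 ∨ coef f p = -1

/-- `Λ` is the completed L-function of `f`: it is entire and
`Λ(s) = N^(s/2) (2π)^(-s) Γ(s) ∑ c(n) n^(-s)` for `Re s > 2`. -/
def IsCompleted {N : ℕ} (f : CuspForm (Gamma0 N : Subgroup (GL (Fin 2) ℝ)) 2) (Λ : ℂ → ℂ) : Prop :=
  Differentiable ℂ Λ ∧ ∀ s : ℂ, 2 < s.re →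
    Λ s = ((Real.sqrt N / (2 * Real.pi) : ℝ) : ℂ) ^ s * Complex.Gamma s *
      ∑' n : ℕ, coef f (n + 1) * ((n + 1 : ℕ) : ℂ) ^ (-s)

/-- **Main theorem.** For every elliptic curve `E : y² = x³ + a x + b` over `ℚ` of conductor `N` the
completed L-function `Λ` exists, is unique, satisfies the functional equation, and for every `c < 1` there is `C`
such that for all `1 ≤ σ ≤ 3/2` and `T ≥ 2` the number of zeros `ρ` of `Λ` with `Re ρ ≥ σ`,
`0 < Im ρ ≤ T`, counted with multiplicity, is at most `C T^(1 - c (σ - 1)) log T`. -/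
theorem result (a b : ℤ) (N : ℕ) [NeZero N] (f : CuspForm (Gamma0 N : Subgroup (GL (Fin 2) ℝ)) 2) (w : ℝ)
    (_hE : 4 * a ^ 3 + 27 * b ^ 2 ≠ 0) (hf : IsFormOf a b N f w) :
    ∃ Λ : ℂ → ℂ, IsCompleted f Λ ∧ (∀ Λ', IsCompleted f Λ' → Λ' = Λ) ∧
      (∀ s : ℂ, Λ (2 - s) = (w : ℂ) * Λ s) ∧
      ∀ c : ℝ, c < 1 → ∃ C : ℝ, 0 < C ∧ ∀ σ T : ℝ, 1 ≤ σ → σ ≤ 3 / 2 → 2 ≤ T →
        {ρ : ℂ | Λ ρ = 0 ∧ σ ≤ ρ.re ∧ 0 < ρ.im ∧ ρ.im ≤ T}.Finite ∧
        ∑ᶠ ρ ∈ {ρ : ℂ | Λ ρ = 0 ∧ σ ≤ ρ.re ∧ 0 < ρ.im ∧ ρ.im ≤ T}, (analyticOrderNatAt Λ ρ : ℝ) ≤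
          C * T ^ (1 - c * (σ - 1)) * Real.log T := by
  have hf' : Pool.Agent.W169.HF.IsForm N f w :=
    { one := hf.one
      real := hf.real
      mul := hf.mul
      pow := hf.pow
      sign := hf.sign
      fricke := hf.fricke
      good := hf.good
      bad := fun p hp hpN => by
        have h1 : (1 : ℝ) ≤ Real.sqrt p := by
          rw [Real.one_le_sqrt]
          exact_mod_cast hp.one_le
        have h2 : ‖coef f p‖ ≤ 1 := by
          rcases hf.bad p hp hpN with h | h | h <;> simp [h]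
        exact h2.trans h1 }
  obtain ⟨Λ, hΛ, hfe, -, -⟩ := Pool.Agent.W174.HF.nf1 N f w hf'
  exact ⟨Λ, hΛ, fun Λ' h' => Pool.Agent.Y24.GL.completed_unique h' hΛ, hfe,
    fun c hc => Pool.Agent.Y24.GL.nf_density hf' hΛ hc⟩

end Pool.Agent.Results.MP_553913_nt.LogFreeDensity
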