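import Pool.Agent.Y19.QT.ZD3
import Pool.Agent.Y19.QT.Fams

/-!
# Zeros of `L(E_d, s)` off the critical line, for almost all quadratic twists

`E_d : y² = x³ + a d² x + b d³`, `d` squarefree (positive or negative), are the quadratic twists of
`E : y² = x³ + a x + b`.  We prove, without any hypothesis, for all `E` with `j`-invariant `0` or `1728`
and for all quadratic twists of `X₀(11)` and `X₀(14)`, and for every elliptic curve over `ℚ` whose
quadratic twists are modular, the density theorem

`∑_{|d| ≤ X, d squarefree} N_d(σ, U) ≤ C (1 + U)^B X^(1 - c (σ - 1)) (log X)^A`  (`c > 0`, `σ ≥ 1`)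

for the number `N_d(σ, U)` of zeros of `L(E_d, s)` with `Re s ≥ σ`, `|Im s| ≤ U`, with the loss of a
power of `log X` only (in place of `X^ε`).  So for almost all `d` all the zeros, at any height, satisfy
`|Re ρ - 1| ≤ K' (log log X + log (2 + |Im ρ|)) / log X`.

Method: a large sieve inequality for quadratic characters with a loss of a power of `log X` only for
the coefficients of the newform, proved by the Poisson summation formula in `d`, the functional
equations of all the twists and the embedding `d ↦ d p²`, `p ≤ P`, of the family into a longer one,
with a contraction in the closing step, on rays near the imaginary axis (for the dependence on the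
height); then a mollifier.
-/

set_option autoImplicit false

namespace Pool.Agent.Results.MP_553913_nt.TwistZeroDensity

open Pool.Agent.Y19.QT

theorem result : (∀ a b : ℤ, Fam a b → DensityLaw a b) ∧
    ∀ a b : ℤ, 4 * a ^ 3 + 27 * b ^ 2 ≠ 0 → TwistsModular a b → DensityLaw a b :=
  ⟨fun _ _ h => densityLaw_of h.disc h.data.1 h.data.2, fun _ _ hab h => densityLaw_modular hab h⟩

end Pool.Agent.Results.MP_553913_nt.TwistZeroDensity
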